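import Pool.Agent.Helper11.Q3.Stmts

/-!
# A1 (MP_a499ba_nt): blocks J3a, J3b

The functions are multiplicative; on the powers of a prime `p` only one term of the convolution remains.
-/

set_option autoImplicit false

namespace Pool.Agent.Helper79.Q3

open Finset ArithmeticFunction Pool.Agent.Helper11.Q3

/-- `fz (zq q)` as an arithmetic function. -/
noncomputable def fA (q : ℕ) : ArithmeticFunction ℝ := ⟨fz (zq q), by simp [fz]⟩

/-- `gz (zq q)` as an arithmetic function. -/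
noncomputable def gA (q : ℕ) : ArithmeticFunction ℝ := ⟨gz (zq q), by simp [gz]⟩

/-- The numbers composed of the primes of `q`. -/
noncomputable def KA (q : ℕ) : ArithmeticFunction ℝ :=
  ⟨fun n => if n ≠ 0 ∧ ∀ p ∈ n.primeFactors, p ∣ q then 1 else 0, by simp⟩

/-- The squarefree numbers composed of the primes of `q`. -/
noncomputable def KS (q : ℕ) : ArithmeticFunction ℝ :=
  ⟨fun n => if Squarefree n ∧ ∀ p ∈ n.primeFactors, p ∣ q then 1 else 0, by simp⟩

/-- `μ` times the Jacobi symbol. -/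
noncomputable def MA (q : ℕ) : ArithmeticFunction ℝ := ⟨fun n => (moebius n : ℝ) * (jacobiSym n q : ℝ), by simp⟩

/-- The Liouville function times the Jacobi symbol. -/
noncomputable def LA (q : ℕ) : ArithmeticFunction ℝ :=
  ⟨fun n => if n = 0 then 0 else (-1 : ℝ) ^ cardFactors n * (jacobiSym n q : ℝ), by simp⟩

lemma jac_mul (q m n : ℕ) : (jacobiSym (m * n : ℕ) q : ℝ) = jacobiSym m q * jacobiSym n q := by
  push_cast
  rw [jacobiSym.mul_left]
  push_cast
  ring

lemma jac_zero {q p : ℕ} (hq : 0 < q) (hp : p.Prime) (h : p ∣ q) : jacobiSym p q = 0 := by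
  have : NeZero q := ⟨hq.ne'⟩
  rw [jacobiSym.eq_zero_iff_not_coprime]
  intro h1
  have h2 : Nat.gcd p q = 1 := by
    rw [Int.gcd_natCast_natCast] at h1
    exact h1
  rw [Nat.gcd_eq_left h] at h2
  exact hp.one_lt.ne' h2

lemma fA_mul (q : ℕ) : (fA q).IsMultiplicative := by
  refine ⟨by simp [fA, fz], ?_⟩
  intro m n hmn
  change fz (zq q) (m * n) = fz (zq q) m * fz (zq q) n
  unfold fz
  by_cases hm : Squarefree m
  · by_cases hn : Squarefree n
    · rw [if_pos hm, if_pos hn, if_pos ((Nat.squarefree_mul hmn).mpr ⟨hm, hn⟩), hmn.primeFactors_mul,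
        Finset.prod_union hmn.disjoint_primeFactors]
    · rw [if_neg hn, mul_zero, if_neg fun h => hn ((Nat.squarefree_mul hmn).mp h).2]
  · rw [if_neg hm, zero_mul, if_neg fun h => hm ((Nat.squarefree_mul hmn).mp h).1]

lemma gA_mul (q : ℕ) : (gA q).IsMultiplicative := by
  rw [IsMultiplicative.iff_ne_zero]
  refine ⟨by simp [gA, gz], ?_⟩
  intro m n hm hn _
  change gz (zq q) (m * n) = gz (zq q) m * gz (zq q) n
  unfold gz
  rw [if_neg hm, if_neg hn, if_neg (mul_ne_zero hm hn)]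
  change (m * n).factorization.prod (fun p e => zq q p ^ e) = m.factorization.prod (fun p e => zq q p ^ e) *
    n.factorization.prod (fun p e => zq q p ^ e)
  rw [Nat.factorization_mul hm hn, Finsupp.prod_add_index' (fun _ => pow_zero _) fun _ _ _ => pow_add _ _ _]

lemma ite_and_mul {P Q R : Prop} [Decidable P] [Decidable Q] [Decidable R] (h : P ↔ Q ∧ R) :
    (if P then (1 : ℝ) else 0) = (if Q then 1 else 0) * (if R then 1 else 0) := by
  by_cases hQ : Q
  · by_cases hR : R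
    · rw [if_pos (h.mpr ⟨hQ, hR⟩), if_pos hQ, if_pos hR, one_mul]
    · rw [if_neg fun h1 => hR (h.mp h1).2, if_neg hR, mul_zero]
  · rw [if_neg fun h1 => hQ (h.mp h1).1, if_neg hQ, zero_mul]

lemma KA_mul (q : ℕ) : (KA q).IsMultiplicative := by
  rw [IsMultiplicative.iff_ne_zero]
  refine ⟨by simp [KA], ?_⟩
  intro m n hm hn _
  refine ite_and_mul ?_
  rw [Nat.primeFactors_mul hm hn]
  constructor
  · intro h
    exact ⟨⟨hm, fun p hp => h.2 p (Finset.mem_union_left _ hp)⟩, hn, fun p hp => h.2 p (Finset.mem_union_right _ hp)⟩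
  · intro h
    refine ⟨mul_ne_zero hm hn, fun p hp => ?_⟩
    rcases Finset.mem_union.mp hp with h1 | h1
    · exact h.1.2 p h1
    · exact h.2.2 p h1

lemma KS_mul (q : ℕ) : (KS q).IsMultiplicative := by
  rw [IsMultiplicative.iff_ne_zero]
  refine ⟨by simp [KS], ?_⟩
  intro m n hm hn hmn
  refine ite_and_mul ?_
  rw [Nat.primeFactors_mul hm hn, Nat.squarefree_mul hmn]
  constructor
  · intro h
    exact ⟨⟨h.1.1, fun p hp => h.2 p (Finset.mem_union_left _ hp)⟩, h.1.2,
      fun p hp => h.2 p (Finset.mem_union_right _ hp)⟩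
  · intro h
    refine ⟨⟨h.1.1, h.2.1⟩, fun p hp => ?_⟩
    rcases Finset.mem_union.mp hp with h1 | h1
    · exact h.1.2 p h1
    · exact h.2.2 p h1

lemma MA_mul (q : ℕ) : (MA q).IsMultiplicative := by
  refine ⟨by simp [MA], ?_⟩
  intro m n hmn
  change (moebius (m * n) : ℝ) * (jacobiSym (m * n : ℕ) q : ℝ) =
    ((moebius m : ℝ) * (jacobiSym m q : ℝ)) * ((moebius n : ℝ) * (jacobiSym n q : ℝ))
  rw [isMultiplicative_moebius.map_mul_of_coprime hmn, jac_mul]
  push_cast
  ring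

lemma LA_mul (q : ℕ) : (LA q).IsMultiplicative := by
  rw [IsMultiplicative.iff_ne_zero]
  refine ⟨by simp [LA], ?_⟩
  intro m n hm hn _
  change (if m * n = 0 then 0 else (-1 : ℝ) ^ cardFactors (m * n) * (jacobiSym (m * n : ℕ) q : ℝ)) =
    (if m = 0 then 0 else (-1 : ℝ) ^ cardFactors m * (jacobiSym m q : ℝ)) *
      (if n = 0 then 0 else (-1 : ℝ) ^ cardFactors n * (jacobiSym n q : ℝ))
  rw [if_neg hm, if_neg hn, if_neg (mul_ne_zero hm hn), cardFactors_mul hm hn, jac_mul, pow_add]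
  ring

lemma conv_pow (f g : ArithmeticFunction ℝ) {p : ℕ} (hp : p.Prime) (e : ℕ) :
    (f * g) (p ^ e) = ∑ i ∈ range (e + 1), f (p ^ i) * g (p ^ (e - i)) := by
  rw [mul_apply, Nat.sum_divisorsAntidiagonal (fun a b => f a * g b), Nat.divisors_prime_pow hp, Finset.sum_map]
  refine Finset.sum_congr rfl fun i hi => ?_
  have h1 : i ≤ e := Nat.lt_succ_iff.mp (Finset.mem_range.mp hi)
  change f (p ^ i) * g (p ^ e / p ^ i) = _
  rw [Nat.pow_div h1 hp.pos]

/-- Only one term of the convolution remains. -/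
lemma conv_last (f g : ArithmeticFunction ℝ) {p : ℕ} (hp : p.Prime) (hg : g 1 = 1) (h : ∀ j, 0 < j → g (p ^ j) = 0)
    (e : ℕ) : (f * g) (p ^ e) = f (p ^ e) := by
  rw [conv_pow f g hp, Finset.sum_eq_single e]
  · rw [Nat.sub_self, pow_zero, hg, mul_one]
  · intro i hi hie
    have h1 := Finset.mem_range.mp hi
    rw [h (e - i) (by omega), mul_zero]
  · intro h1
    exact absurd (Finset.mem_range.mpr (Nat.lt_succ_self e)) h1

lemma conv_first (f g : ArithmeticFunction ℝ) {p : ℕ} (hp : p.Prime) (hf : f 1 = 1) (h : ∀ j, 0 < j → f (p ^ j) = 0)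
    (e : ℕ) : (f * g) (p ^ e) = g (p ^ e) := by
  rw [mul_comm]
  exact conv_last g f hp hf h e

lemma jac_pow_zero {q p : ℕ} (hq : 0 < q) (hp : p.Prime) (h : p ∣ q) {j : ℕ} (hj : 0 < j) :
    (jacobiSym (p ^ j : ℕ) q : ℝ) = 0 := by
  push_cast
  rw [jacobiSym.pow_left, jac_zero hq hp h, zero_pow hj.ne', Int.cast_zero]

lemma fA_pow {q p : ℕ} (hp : p.Prime) (e : ℕ) :
    fA q (p ^ e) = if e = 0 then 1 else if e = 1 then zq q p else 0 := by
  change fz (zq q) (p ^ e) = _
  unfold fz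
  rcases Nat.eq_zero_or_pos e with he | he
  · rw [he, pow_zero, if_pos rfl, if_pos squarefree_one, Nat.primeFactors_one, Finset.prod_empty]
  · rw [if_neg he.ne']
    by_cases h1 : e = 1
    · rw [if_pos h1, h1, pow_one, if_pos hp.squarefree, hp.primeFactors, Finset.prod_singleton]
    · rw [if_neg h1, if_neg]
      intro h2
      rw [Nat.squarefree_pow_iff hp.one_lt.ne' he.ne'] at h2
      exact h1 h2.2

lemma gA_pow {q p : ℕ} (hp : p.Prime) (e : ℕ) : gA q (p ^ e) = zq q p ^ e := by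
  change gz (zq q) (p ^ e) = _
  unfold gz
  rw [if_neg (pow_ne_zero e hp.ne_zero)]
  change (p ^ e).factorization.prod (fun p e => zq q p ^ e) = _
  rw [hp.factorization_pow]
  exact Finsupp.prod_single_index (h := fun p e => zq q p ^ e) (pow_zero _)

lemma fA_eq {q : ℕ} (hq : 0 < q) : fA q = KS q * MA q := by
  rw [(fA_mul q).eq_iff_eq_on_prime_powers _ _ ((KS_mul q).mul (MA_mul q))]
  intro p e hp
  rw [fA_pow hp]
  by_cases h : p ∣ q
  · rw [conv_last _ _ hp (MA_mul q).1 fun j hj => by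
      change (moebius (p ^ j) : ℝ) * (jacobiSym (p ^ j : ℕ) q : ℝ) = 0
      rw [jac_pow_zero hq hp h hj, mul_zero]]
    change _ = if Squarefree (p ^ e) ∧ ∀ r ∈ (p ^ e).primeFactors, r ∣ q then (1 : ℝ) else 0
    rcases Nat.eq_zero_or_pos e with he | he
    · rw [if_pos he, he, pow_zero, if_pos ⟨squarefree_one, by simp⟩]
    · rw [if_neg he.ne', Nat.primeFactors_prime_pow he.ne' hp]
      by_cases h1 : e = 1
      · rw [if_pos h1, h1, pow_one, if_pos ⟨hp.squarefree, by simpa using h⟩, zq, if_pos h]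
      · rw [if_neg h1, if_neg]
        intro h2
        have h3 := h2.1
        rw [Nat.squarefree_pow_iff hp.one_lt.ne' he.ne'] at h3
        exact h1 h3.2
  · rw [conv_first _ _ hp (KS_mul q).1 fun j hj => by
      change (if Squarefree (p ^ j) ∧ ∀ r ∈ (p ^ j).primeFactors, r ∣ q then (1 : ℝ) else 0) = 0
      rw [if_neg]
      rw [Nat.primeFactors_prime_pow hj.ne' hp]
      exact fun h1 => h (h1.2 p (Finset.mem_singleton_self p))]
    change _ = (moebius (p ^ e) : ℝ) * (jacobiSym (p ^ e : ℕ) q : ℝ)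
    rcases Nat.eq_zero_or_pos e with he | he
    · rw [if_pos he, he, pow_zero]
      simp
    · rw [if_neg he.ne', moebius_apply_prime_pow hp he.ne']
      by_cases h1 : e = 1
      · rw [if_pos h1, if_pos h1, h1, pow_one, zq, if_neg h]
        push_cast
        ring
      · rw [if_neg h1, if_neg h1]
        simp

lemma gA_eq {q : ℕ} (hq : 0 < q) : gA q = KA q * LA q := by
  rw [(gA_mul q).eq_iff_eq_on_prime_powers _ _ ((KA_mul q).mul (LA_mul q))]
  intro p e hp
  rw [gA_pow hp]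
  by_cases h : p ∣ q
  · rw [conv_last _ _ hp (LA_mul q).1 fun j hj => by
      change (if p ^ j = 0 then 0 else (-1 : ℝ) ^ cardFactors (p ^ j) * (jacobiSym (p ^ j : ℕ) q : ℝ)) = 0
      rw [if_neg (pow_ne_zero j hp.ne_zero), jac_pow_zero hq hp h hj, mul_zero]]
    change _ = if p ^ e ≠ 0 ∧ ∀ r ∈ (p ^ e).primeFactors, r ∣ q then (1 : ℝ) else 0
    rw [zq, if_pos h, one_pow, if_pos]
    refine ⟨pow_ne_zero e hp.ne_zero, fun r hr => ?_⟩
    have h1 := Nat.mem_primeFactors.mp hr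
    rw [(Nat.prime_dvd_prime_iff_eq h1.1 hp).mp (h1.1.dvd_of_dvd_pow h1.2.1)]
    exact h
  · rw [conv_first _ _ hp (KA_mul q).1 fun j hj => by
      change (if p ^ j ≠ 0 ∧ ∀ r ∈ (p ^ j).primeFactors, r ∣ q then (1 : ℝ) else 0) = 0
      rw [if_neg]
      rw [Nat.primeFactors_prime_pow hj.ne' hp]
      exact fun h1 => h (h1.2 p (Finset.mem_singleton_self p))]
    change _ = if p ^ e = 0 then 0 else (-1 : ℝ) ^ cardFactors (p ^ e) * (jacobiSym (p ^ e : ℕ) q : ℝ)
    rw [if_neg (pow_ne_zero e hp.ne_zero), cardFactors_apply_prime_pow hp, zq, if_neg h]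
    push_cast
    rw [jacobiSym.pow_left]
    push_cast
    rw [← mul_pow]
    ring_nf

lemma Icc_eq (N : ℕ) : Icc 1 N = Ioc 0 N := by
  ext n
  simp only [mem_Icc, mem_Ioc]
  omega

theorem j3a : StmtJ3a := by
  intro q N hq
  simp only [Icc_eq]
  have h1 : ∀ n, fz (zq q) n = (KS q * MA q) n := fun n => by
    rw [← fA_eq hq]
    rfl
  rw [Finset.sum_congr rfl fun n _ => h1 n, sum_Ioc_mul_eq_sum_sum, Finset.sum_filter]
  refine Finset.sum_congr rfl fun k _ => ?_
  change (if Squarefree k ∧ ∀ r ∈ k.primeFactors, r ∣ q then (1 : ℝ) else 0) * _ = _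
  by_cases h : Squarefree k ∧ ∀ r ∈ k.primeFactors, r ∣ q
  · rw [if_pos h, if_pos h, one_mul]
    rfl
  · rw [if_neg h, if_neg h, zero_mul]

theorem j3b : StmtJ3b := by
  intro q N hq
  simp only [Icc_eq]
  have h1 : ∀ n, gz (zq q) n = (KA q * LA q) n := fun n => by
    rw [← gA_eq hq]
    rfl
  rw [Finset.sum_congr rfl fun n _ => h1 n, sum_Ioc_mul_eq_sum_sum, Finset.sum_filter]
  refine Finset.sum_congr rfl fun k hk => ?_
  have hk0 : k ≠ 0 := (Finset.mem_Ioc.mp hk).1.ne'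
  change (if k ≠ 0 ∧ ∀ r ∈ k.primeFactors, r ∣ q then (1 : ℝ) else 0) * _ = _
  have h2 : ∑ m ∈ Ioc 0 (N / k), LA q m = ∑ n ∈ Ioc 0 (N / k), (-1 : ℝ) ^ cardFactors n * (jacobiSym n q : ℝ) := by
    refine Finset.sum_congr rfl fun m hm => ?_
    change (if m = 0 then 0 else (-1 : ℝ) ^ cardFactors m * (jacobiSym m q : ℝ)) = _
    rw [if_neg (Finset.mem_Ioc.mp hm).1.ne']
  rw [h2]
  by_cases h : ∀ r ∈ k.primeFactors, r ∣ q
  · rw [if_pos ⟨hk0, h⟩, if_pos h, one_mul]
  · rw [if_neg fun h3 => h h3.2, if_neg h, zero_mul]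

end Pool.Agent.Helper79.Q3
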